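import Pool.Agent.Lib.MP_b93bad_an.V7

/-! The optimal number of ridges and the least resistance, up to `o(M ^ 3)`, among the dihedral
bodies of small height `M`. -/

open Pool.Agent.Lib.MP_b93bad_an Real

theorem Pool.Agent.Results.MP_b93bad_an.SharpRidge.result (ε : ℝ) (hε : 0 < ε) :
    ∃ δ > 0, ∃ M₀ > 0, ∀ M : ℝ, 0 < M → M < M₀ → ∀ k : ℕ, 3 ≤ k →
      ∀ (α : ℝ) (g : ℝ → ℝ), (∀ r ∈ Set.Icc (0 : ℝ) 1, -M ≤ g r ∧ g r ≤ 0) →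
        (∀ k' : ℕ, 3 ≤ k' → ∀ g' : ℝ → ℝ, ConvexOn ℝ (Set.Icc 0 1) g' → g' 0 = -M → g' 1 = 0 →
          (∀ r ∈ Set.Icc (0 : ℝ) 1, -M ≤ g' r ∧ g' r ≤ 0) →
          resistance (bottom k α g) ≤ resistance (bottom k' 0 g') + δ * M ^ 3) →
        |k * M - 5 * π / (4 * √3)| ≤ ε ∧
          |resistance (bottom k α g) - π * (1 - M + M ^ 2 / 2 - 41 / 150 * M ^ 3)| ≤
            ε * M ^ 3 :=
  partC hε
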